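import Pool.Agent.Helper41.LD5.Defs2
import Pool.Agent.Helper83.LD4.GM
import Pool.Agent.Helper23.LD4.GE
import Pool.Agent.Helper30.LD5.EV

/-!
# Project LD5: the construction of the family (block FAM)
-/

set_option autoImplicit false

namespace Pool.Agent.Helper9.LD5

open Set MeasureTheory Filter Topology
open Pool.Agent.Helper41.LD (av var haar DiscLe Dioph Kk)
open Pool.Agent.Helper41.LD2 (EqA)
open Pool.Agent.Helper41.LD3 (Cst exists_cst fin_max Us tm fr lamG ll)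
open Pool.Agent.Helper41.LD4
open Pool.Agent.Helper41.LD5
open Pool.Agent.Helper83.LD4 (generators4)
open Pool.Agent.Helper23.LD4 (good_exponent4)

/-- `exists_cst4` of `Helper41.LD4.Cst` for arbitrary bases of type `0`, with `12 ≤ m` and a lower bound for `DF` -/
theorem exists_cst5 {τ : ℕ → ℝ} {ty : ℕ → ℕ × ℕ × ℕ} {g Q : ℕ} (hg : 1 ≤ g) (hQ : 1 ≤ Q) (hτ : ∀ h < g, 1 < τ h)
    (hty : ∀ h < g, ((ty h).1 = 0 ∧ (ty h).2.1 = 0) ∨ RatGen (τ h) (ty h).1 (ty h).2.1 (ty h).2.2)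
    (hQr : ∀ h < g, (ty h).1 ≠ 0 → (ty h).1 ∣ Q) (DF₀ : ℕ) :
    ∃ R CF DF Cb m Cq G : ℕ, 12 ≤ m ∧ DF₀ ≤ DF ∧ Cst4 τ ty g Q R CF DF Cb m Cq G := by
  obtain ⟨R, CF, DF, Cb, G, hG1, H⟩ := exists_cst hg hQ hτ
  obtain ⟨m, hm1, hm⟩ := fin_max (P := fun h n => sysm (ty h).2.1 ≤ n) (fun h n n' hn hP => hP.trans hn) g (fun h _ => ⟨_, le_rfl⟩)
  have hr : ∀ h < g, (ty h).1 ≠ 0 → 1 < ((ty h).2.1 : ℝ) / (ty h).2.2 := by
    intro h hh h0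
    rcases hty h hh with h1 | h1
    · exact absurd h1.1 h0
    · have h2 : (0 : ℝ) < (ty h).2.2 := by exact_mod_cast h1.hq
      rw [one_lt_div h2]
      exact_mod_cast h1.hpq
  obtain ⟨Cq, -, hCq⟩ := fin_max (P := fun h n => 1 < ((ty h).2.1 : ℝ) / (ty h).2.2 → ((ty h).2.2 : ℝ) ≤ (((ty h).2.1 : ℝ) / (ty h).2.2) ^ n)
    (fun h n n' hn hP hb => (hP hb).trans (pow_le_pow_right₀ hb.le hn)) g
    (fun h hh => by
      by_cases hb : 1 < ((ty h).2.1 : ℝ) / (ty h).2.2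
      · obtain ⟨n, hn⟩ := pow_unbounded_of_one_lt ((ty h).2.2 : ℝ) hb
        exact ⟨n, fun _ => hn.le⟩
      · exact ⟨0, fun h => absurd h hb⟩)
  obtain ⟨m', hm'⟩ : ∃ m', m' = max m 12 := ⟨_, rfl⟩
  have hmm : m ≤ m' := by rw [hm']; exact le_max_left _ _
  have hm12 : 12 ≤ m' := by rw [hm']; exact le_max_right _ _
  have hG' : G ≤ G * (9 * m' ^ 5) := Nat.le_mul_of_pos_right _ (Nat.mul_pos (by norm_num) (Nat.pow_pos (by omega)))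
  refine ⟨R, CF, max DF DF₀, Cb, m', Cq, G * (9 * m' ^ 5), hm12, le_max_right _ _,
    ⟨⟨H.hg, H.hQ, H.hτ, H.hR1, H.hR, H.hCF1, H.hCF, H.hDF1.trans (le_max_left _ _),
      fun h hh => (H.hDF h hh).trans (pow_le_pow_right₀ (by norm_num) (le_max_left _ _)), H.hCb1, H.hCb, H.hG.trans hG'⟩,
    hm1.trans hmm, fun h hh => (hm h hh).trans hmm, hty, hQr, fun h hh h0 => hCq h hh (hr h hh h0), Nat.mul_le_mul_right _ H.hG⟩⟩

/-- the block FAM, given the block EV -/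
theorem exists_SD5_of
    (hev : ∀ {F : Fam} {κ : ℕ} (_ : 1 ≤ κ) (_ : F.Ok)
      (_ : ∃ (C₀ : ℕ) (D : ℝ), 0 < D ∧ ∀ᶠ K : ℕ in atTop, ∃ (Q₀ : ℕ) (ε : ℝ), (Q₀ : ℝ) + 1 ≤ Real.exp (D * (K : ℝ) ^ (2 * κ)) ∧ 0 ≤ ε ∧
        ε ≤ (1 / 2) ^ (12 * K) ∧ ∀ h < F.g, ∀ e < F.Q, ∀ u₀ : ℕ, ∃ u : ℕ, u₀ ≤ u ∧ u < u₀ + C₀ * K ∧ u % F.Q = e ∧
          ∀ h' < F.g, ∀ u' : ℕ, ¬ (h' = h ∧ u' ≡ u [MOD (F.ty h).1]) →
            (1 / 2 : ℝ) ^ (12 * K) < F.τ h' ^ u' / F.τ h ^ u → F.τ h' ^ u' / F.τ h ^ u < 2 ^ (12 * K) →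
            (F.τ h' ^ u' ≤ F.τ h ^ u ∧ EqA (F.τ h ^ u / F.τ h' ^ u') Q₀ ε) ∨ (F.τ h ^ u ≤ F.τ h' ^ u' ∧ EqA (F.τ h' ^ u' / F.τ h ^ u) Q₀ ε)),
      ∀ᶠ K : ℕ in atTop, F.Big κ 1000 K)
    {κ : ℕ} (hκ : 1 ≤ κ) {A₀ x₁ x₂ : ℝ} (hA : 0 < A₀) (h1 : 1 < x₁) (h12 : x₁ ≤ x₂) {c cp : ℝ → ℝ} (hc : ∀ y, RatPow y → c y = 0)
    {θ : ℕ → ℝ} (hθ : ∀ i, 1 < θ i ∧ (Dioph (θ i) κ ∨ RatPow (θ i))) {r : ℕ → ℚ} (hr : ∀ i, 0 < r i) (σ : ℕ) :
    Nonempty (SD5 κ A₀ x₁ x₂ c cp θ r σ) := by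
  obtain ⟨g, τ, ty, cl, e, g1, g2, g3⟩ := generators4 hκ θ (σ + 1) (fun i _ => hθ i)
  have hg : 1 ≤ g := by have := (g3 0 (by omega)).1; omega
  -- the common denominator
  obtain ⟨P, hP⟩ : ∃ P, P = ∏ i ∈ Finset.range (σ + 1), (r i).den := ⟨_, rfl⟩
  have hP1 : 1 ≤ P := by
    rw [hP]
    exact Nat.one_le_iff_ne_zero.2 (Finset.prod_ne_zero_iff.2 fun i _ => (r i).den_nz)
  have hPd : ∀ i ≤ σ, (r i).den ∣ P := fun i hi => by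
    rw [hP]
    exact Finset.dvd_prod_of_mem (fun i => (r i).den) (Finset.mem_range.2 (by omega))
  obtain ⟨a, ha⟩ : ∃ a : ℕ → ℕ, ∀ i, a i = (r i).num.toNat * (P / (r i).den) := ⟨fun i => (r i).num.toNat * (P / (r i).den), fun i => rfl⟩
  have hnum : ∀ i, 1 ≤ (r i).num.toNat ∧ (((r i).num.toNat : ℕ) : ℤ) = (r i).num := fun i => by
    have h := Rat.num_pos.2 (hr i)
    constructor <;> omega
  have ha1 : ∀ i ≤ σ, 1 ≤ a i := fun i hi => by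
    rw [ha]
    exact Nat.mul_pos (hnum i).1 (Nat.div_pos (Nat.le_of_dvd hP1 (hPd i hi)) (r i).den_pos)
  have har : ∀ i ≤ σ, (r i : ℝ) = a i / P := fun i hi => by
    obtain ⟨d, hd⟩ := hPd i hi
    have hdp : 0 < (r i).den := (r i).den_pos
    have hd0 : 0 < d := Nat.pos_of_ne_zero fun h0 => by rw [hd, h0] at hP1; omega
    have e1 : P / (r i).den = d := by rw [hd]; exact Nat.mul_div_cancel_left _ hdp
    have e2 : ((r i).num.toNat : ℝ) = ((r i).num : ℝ) := by exact_mod_cast (hnum i).2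
    rw [ha, e1, hd, Nat.cast_mul, Nat.cast_mul, e2]
    have h3 : (d : ℝ) ≠ 0 := by exact_mod_cast hd0.ne'
    rw [mul_div_mul_right _ _ h3]
    exact Rat.cast_def (r i)
  have hQ1 : 1 ≤ ∏ i ∈ Finset.range (σ + 1), e i :=
    Nat.one_le_iff_ne_zero.2 (Finset.prod_ne_zero_iff.2 fun i hi => by
      have := (g3 i (Finset.mem_range.1 hi)).2.1
      omega)
  have hQ2 : 1 ≤ ∏ h ∈ Finset.range g, max 1 (ty h).1 :=
    Nat.one_le_iff_ne_zero.2 (Finset.prod_ne_zero_iff.2 fun i hi => by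
      have := le_max_left 1 (ty i).1
      omega)
  have hQ3 : 1 ≤ ∏ i ∈ Finset.range (σ + 1), a i :=
    Nat.one_le_iff_ne_zero.2 (Finset.prod_ne_zero_iff.2 fun i hi => by
      have := ha1 i (by have := Finset.mem_range.1 hi; omega)
      omega)
  obtain ⟨Q, hQ⟩ : ∃ Q, Q = ((∏ i ∈ Finset.range (σ + 1), e i) * ∏ h ∈ Finset.range g, max 1 (ty h).1) * ∏ i ∈ Finset.range (σ + 1), a i := ⟨_, rfl⟩
  have hQp : 1 ≤ Q := by rw [hQ]; exact Nat.mul_pos (Nat.mul_pos hQ1 hQ2) hQ3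
  have hQr : ∀ h < g, (ty h).1 ≠ 0 → (ty h).1 ∣ Q := by
    intro h hh h0
    rw [hQ]
    refine Dvd.dvd.mul_right (Dvd.dvd.mul_left ?_ _) _
    have h4 : max 1 (ty h).1 ∣ ∏ h ∈ Finset.range g, max 1 (ty h).1 :=
      Finset.dvd_prod_of_mem (fun h => max 1 (ty h).1) (Finset.mem_range.2 hh)
    rwa [max_eq_right (by omega : 1 ≤ (ty h).1)] at h4
  -- the bases and the types with the additional class
  obtain ⟨τ', hτ'⟩ : ∃ τ' : ℕ → ℝ, τ' = fun h => if h < g then τ h else x₁ ^ (1 / (P : ℝ)) := ⟨_, rfl⟩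
  obtain ⟨ty', hty'⟩ : ∃ ty' : ℕ → ℕ × ℕ × ℕ, ty' = fun h => if h < g then ty h else (0, 0, 0) := ⟨_, rfl⟩
  have t1 : ∀ h < g + 1, 1 < τ' h := by
    intro h _
    rw [hτ']
    by_cases h3 : h < g
    · simp only [h3, if_true]
      exact (g1 h h3).1
    · simp only [h3, if_false]
      exact Real.one_lt_rpow h1 (by positivity)
  have t2 : ∀ h < g + 1, ((ty' h).1 = 0 ∧ (ty' h).2.1 = 0) ∨ RatGen (τ' h) (ty' h).1 (ty' h).2.1 (ty' h).2.2 := by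
    intro h _
    rw [hτ', hty']
    by_cases h3 : h < g
    · simp only [h3, if_true]
      rcases (g1 h h3).2 with h4 | h4
      · left
        rw [h4.1]
        exact ⟨rfl, rfl⟩
      · exact Or.inr h4
    · left
      simp [h3]
  have t3 : ∀ h < g + 1, (ty' h).1 ≠ 0 → (ty' h).1 ∣ Q := by
    intro h _
    rw [hty']
    by_cases h3 : h < g
    · simp only [h3, if_true]
      exact hQr h h3
    · simp only [h3, if_false]
      exact fun h4 => absurd rfl h4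
  obtain ⟨DF₀, hDF₀⟩ := pow_unbounded_of_one_lt ((1 + (Q : ℝ) / P) * x₂ ^ ((Q : ℝ) / P)) (show (1 : ℝ) < 2 by norm_num)
  obtain ⟨R, CF, DF, Cb, m, Cq, G, hm12, hDF, H⟩ := exists_cst5 (Nat.le_add_left 1 g) hQp t1 t2 t3 DF₀
  -- the large constant
  have two : (1 : ℝ) < 2 := by norm_num
  have h2x : 1 < x₂ := h1.trans_le h12
  obtain ⟨N1, hN1⟩ := pow_unbounded_of_one_lt A₀ two
  obtain ⟨N2, hN2⟩ := pow_unbounded_of_one_lt (1 / A₀) two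
  obtain ⟨N3, hN3⟩ := pow_unbounded_of_one_lt x₂ two
  obtain ⟨N4, hN4⟩ := pow_unbounded_of_one_lt (2 : ℝ) h1
  obtain ⟨N5, -, hN5⟩ := fin_max (P := fun h n => 1 < τ h → (2 : ℝ) ≤ τ h ^ n)
    (fun h n n' hn hP hb => (hP hb).trans (pow_le_pow_right₀ hb.le hn)) g
    (fun h hh => by
      obtain ⟨n, hn⟩ := pow_unbounded_of_one_lt (2 : ℝ) (g1 h hh).1
      exact ⟨n, fun _ => hn.le⟩)
  obtain ⟨Cx, hCx⟩ : ∃ Cx, Cx = P + Q + g + DF + N1 + N2 + N3 + N4 + N5 := ⟨_, rfl⟩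
  have c1 : N1 ≤ Cx ∧ N2 ≤ Cx ∧ N3 ≤ Cx ∧ N4 ≤ Cx ∧ N5 ≤ Cx := by omega
  have ok : Fam.Ok ⟨A₀, x₁, x₂, P, Q, g, τ, ty, c, cp, R, CF, DF, Cb, m, Cq, G, Cx⟩ :=
    { H := by
        show Cst4 (fun h => if h < g then τ h else x₁ ^ (1 / (P : ℝ))) (fun h => if h < g then ty h else (0, 0, 0)) (g + 1) Q R CF DF Cb m Cq G
        rw [← hτ', ← hty']
        exact H
      m12 := hm12
      hc := hc
      hA := hA
      hP := hP1
      h1 := h1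
      h12 := h12
      hDF := hDF₀.le.trans (pow_le_pow_right₀ two.le hDF)
      hCx := by show 1 ≤ Cx; omega
      hPC := by show P ≤ Cx; omega
      hQC := by show Q ≤ Cx; omega
      hgC := by show g ≤ Cx; omega
      hDC := by show DF ≤ Cx; omega
      hA1 := hN1.le.trans (pow_le_pow_right₀ two.le c1.1)
      hA2 := by
        show 1 ≤ A₀ * 2 ^ Cx
        have h3 : 1 / A₀ ≤ 2 ^ Cx := hN2.le.trans (pow_le_pow_right₀ two.le c1.2.1)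
        rw [div_le_iff₀ hA] at h3
        linarith
      hx2 := hN3.le.trans (pow_le_pow_right₀ two.le c1.2.2.1)
      hx1 := hN4.le.trans (pow_le_pow_right₀ h1.le c1.2.2.2.1)
      hτx := fun h hh => (hN5 h hh (g1 h hh).1).trans (pow_le_pow_right₀ (g1 h hh).1.le c1.2.2.2.2) }
  refine ⟨⟨⟨A₀, x₁, x₂, P, Q, g, τ, ty, c, cp, R, CF, DF, Cb, m, Cq, G, Cx⟩, ok, rfl, rfl, rfl, rfl, rfl,
    hev hκ ok (good_exponent4 hκ g1 g2 hQp), cl, e, a, fun i hi => (g3 i (by omega)).1, fun i hi => (g3 i (by omega)).2.1, fun i hi => ?_,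
    fun i hi => (g3 i (by omega)).2.2, ha1, fun i hi => ?_, har⟩⟩
  · show e i ∣ Q
    rw [hQ, mul_assoc]
    exact Dvd.dvd.mul_right (Finset.dvd_prod_of_mem e (Finset.mem_range.2 (by omega))) _
  · show a i ∣ Q
    rw [hQ]
    exact Dvd.dvd.mul_left (Finset.dvd_prod_of_mem a (Finset.mem_range.2 (by omega))) _

theorem exists_SD5 {κ : ℕ} (hκ : 1 ≤ κ) {A₀ x₁ x₂ : ℝ} (hA : 0 < A₀) (h1 : 1 < x₁) (h12 : x₁ ≤ x₂) {c cp : ℝ → ℝ} (hc : ∀ y, RatPow y → c y = 0)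
    {θ : ℕ → ℝ} (hθ : ∀ i, 1 < θ i ∧ (Dioph (θ i) κ ∨ RatPow (θ i))) {r : ℕ → ℚ} (hr : ∀ i, 0 < r i) (σ : ℕ) :
    Nonempty (SD5 κ A₀ x₁ x₂ c cp θ r σ) :=
  exists_SD5_of (fun hκ hF h => Pool.Agent.Helper30.LD5.ev_big5 hκ hF h) hκ hA h1 h12 hc hθ hr σ

end Pool.Agent.Helper9.LD5
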